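import Pool.Agent.R53.OddMaj

namespace Pool.Agent.Results.MP_28691e_co.ThreeColourable

/-- A `2→1` hypergraph on the vertex type `V`: a set of hyperedges, each given as a pair
`(t, h)` where `t` is the tail (two vertices) and `h ∉ t` is the head. -/
structure TwoOneHypergraph (V : Type*) where
  /-- the hyperedges, as pairs (tail, head) -/
  edges : Set (Finset V × V)
  /-- every tail has exactly two vertices -/
  tail_card : ∀ e ∈ edges, e.1.card = 2
  /-- the head is not in the tail -/
  head_notMem : ∀ e ∈ edges, e.2 ∉ e.1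

/-- `H` contains the hypergraph `I₀`: five distinct vertices `a, b, c, d, e` with hyperedges
`ab → e` and `cd → e`. -/
def TwoOneHypergraph.ContainsI0 {V : Type*} [DecidableEq V] (H : TwoOneHypergraph V) : Prop :=
  ∃ a b c d e : V, [a, b, c, d, e].Nodup ∧
    (({a, b} : Finset V), e) ∈ H.edges ∧ (({c, d} : Finset V), e) ∈ H.edges

/-- a colouring is proper if no hyperedge is monochromatic -/
def TwoOneHypergraph.IsProper {V : Type*} (H : TwoOneHypergraph V) {k : ℕ} (c : V → Fin k) :
    Prop :=
  ∀ e ∈ H.edges, ∃ x ∈ e.1, c x ≠ c e.2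

theorem fin3_a (i : Fin 3) : i + 2 ≠ i := by revert i; decide
theorem fin3_b (i : Fin 3) : i + 1 ≠ i := by revert i; decide
theorem fin3_c (i : Fin 3) : i + 2 ≠ i + 1 := by revert i; decide

open Pool.Agent.R53.OddFree in
/-- majority 3-colourings of digraphs with out-degrees at most three -/
theorem majority_three {V : Type*} [DecidableEq V] [Finite V] (N : V → Finset V)
    (hirr : ∀ x, x ∉ N x) (h3 : ∀ x, (N x).card ≤ 3) :
    ∃ c : V → Fin 3, ∀ v, 2 * ((N v).filter (fun y => c y = c v)).card ≤ (N v).card := by
  classical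
  have := Fintype.ofFinite V
  obtain ⟨p, hp⟩ := exists_partition N hirr h3 Finset.univ
  have hex : ∀ i : Fin 3, ∃ g : V → Bool, ∀ v ∈ Finset.univ.filter (fun x => p x = i),
      2 * ((if g v = true then ((N v).filter (fun y => p y = i + 2)).card
        else ((N v).filter (fun y => p y = i + 1)).card) +
        ((N v ∩ Finset.univ.filter (fun x => p x = i)).filter (fun y => g y = g v)).card)
        ≤ (N v).card := by
    intro i
    refine majority_two N (fun v => (N v).card) (Finset.univ.filter (fun x => p x = i))
      (fun e v => if e = true then ((N v).filter (fun y => p y = i + 2)).card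
        else ((N v).filter (fun y => p y = i + 1)).card) ((hp i).mono ?_) ?_
    · intro x hx
      have : x ∈ Finset.univ.filter (fun x => p x = i) := hx
      exact ⟨Finset.mem_univ _, (Finset.mem_filter.mp this).2⟩
    · intro v _
      simp only [if_true, Bool.false_eq_true, if_false]
      rw [← Finset.card_union_of_disjoint, ← Finset.card_union_of_disjoint]
      · apply Finset.card_le_card
        intro y hy
        simp only [Finset.mem_union, Finset.mem_filter, Finset.mem_inter] at hy
        tauto
      · rw [Finset.disjoint_left]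
        intro y h1 h2
        simp only [Finset.mem_union, Finset.mem_filter, Finset.mem_inter, Finset.mem_univ,
          true_and] at h1 h2
        rcases h1 with h1 | h1
        · exact fin3_a i (h1.2.symm.trans h2.2)
        · exact fin3_b i (h1.2.symm.trans h2.2)
      · rw [Finset.disjoint_left]
        intro y h1 h2
        simp only [Finset.mem_filter] at h1 h2
        exact fin3_c i (h1.2.symm.trans h2.2)
  choose g hg using hex
  refine ⟨fun v => if g (p v) v = true then p v + 1 else p v + 2, ?_⟩
  intro v
  have h1 := hg (p v) v (Finset.mem_filter.mpr ⟨Finset.mem_univ _, rfl⟩)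
  refine le_trans ?_ h1
  have key : (N v).filter (fun y => (if g (p y) y = true then p y + 1 else p y + 2) =
      (if g (p v) v = true then p v + 1 else p v + 2)) ⊆
      (if g (p v) v = true then (N v).filter (fun y => p y = p v + 2)
        else (N v).filter (fun y => p y = p v + 1)) ∪
      ((N v ∩ Finset.univ.filter (fun x => p x = p v)).filter (fun y => g (p v) y = g (p v) v)) := by
    intro y hy
    rw [Finset.mem_filter] at hy
    obtain ⟨hyN, hyc⟩ := hy
    by_cases hpy : p y = p v
    · rw [Finset.mem_union]; right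
      rw [Finset.mem_filter, Finset.mem_inter, Finset.mem_filter]
      refine ⟨⟨hyN, Finset.mem_univ _, hpy⟩, ?_⟩
      rw [hpy] at hyc
      generalize p v = i at hyc
      generalize g i y = e at hyc ⊢
      generalize g i v = f at hyc ⊢
      revert hyc; revert i e f; decide
    · rw [Finset.mem_union]; left
      generalize g (p v) v = f at hyc ⊢
      generalize g (p y) y = e at hyc
      cases f
      · simp only [Bool.false_eq_true, if_false, Finset.mem_filter]
        refine ⟨hyN, ?_⟩
        simp only [Bool.false_eq_true, if_false] at hyc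
        revert hyc hpy
        generalize p v = i
        generalize p y = j
        revert i j e; decide
      · simp only [if_true, Finset.mem_filter]
        refine ⟨hyN, ?_⟩
        simp only [if_true] at hyc
        revert hyc hpy
        generalize p v = i
        generalize p y = j
        revert i j e; decide
  have h2 := Finset.card_le_card key
  have h3' := h2.trans (Finset.card_union_le _ _)
  have h4 : (if g (p v) v = true then (N v).filter (fun y => p y = p v + 2)
        else (N v).filter (fun y => p y = p v + 1)).card =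
      (if g (p v) v = true then ((N v).filter (fun y => p y = p v + 2)).card
        else ((N v).filter (fun y => p y = p v + 1)).card) := by
    split_ifs <;> rfl
  rw [h4] at h3'
  beta_reduce
  omega

/-- an intersecting family of 2-sets is a star or lies inside a 3-set -/
theorem star_or_triangle {V : Type*} [DecidableEq V] (v : V) (F : Set (Finset V))
    (hcard : ∀ t ∈ F, t.card = 2) (hv : ∀ t ∈ F, v ∉ t)
    (hint : ∀ s ∈ F, ∀ t ∈ F, ¬ Disjoint s t) :
    ∃ N : Finset V, v ∉ N ∧ N.card ≤ 3 ∧
      ∀ (k : ℕ) (c : V → Fin k), 2 * (N.filter (fun y => c y = c v)).card ≤ N.card →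
        ∀ t ∈ F, ∃ x ∈ t, c x ≠ c v := by
  by_cases hF : ∃ t, t ∈ F
  swap
  · exact ⟨∅, by simp, by simp, fun k c _ t ht => absurd ⟨t, ht⟩ hF⟩
  obtain ⟨t₁, ht₁⟩ := hF
  by_cases hstar : ∃ u, ∀ t ∈ F, u ∈ t
  · obtain ⟨u, hu⟩ := hstar
    refine ⟨{u}, ?_, by simp, ?_⟩
    · intro h
      rw [Finset.mem_singleton] at h
      subst h
      exact hv t₁ ht₁ (hu t₁ ht₁)
    · intro k c hc t ht
      refine ⟨u, hu t ht, ?_⟩
      intro h
      rw [Finset.filter_singleton, if_pos h] at hc
      simp at hc
  · push Not at hstar
    obtain ⟨a, b, hab, rfl⟩ := Finset.card_eq_two.mp (hcard t₁ ht₁)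
    obtain ⟨t₂, ht₂, ha₂⟩ := hstar a
    obtain ⟨t₃, ht₃, hb₃⟩ := hstar b
    have hb₂ : b ∈ t₂ := by
      have := hint _ ht₁ _ ht₂
      rw [Finset.not_disjoint_iff] at this
      obtain ⟨x, hx, hx2⟩ := this
      rcases Finset.mem_insert.mp hx with rfl | hx
      · exact absurd hx2 ha₂
      · rw [Finset.mem_singleton] at hx; exact hx ▸ hx2
    have ha₃ : a ∈ t₃ := by
      have := hint _ ht₁ _ ht₃
      rw [Finset.not_disjoint_iff] at this
      obtain ⟨x, hx, hx2⟩ := this
      rcases Finset.mem_insert.mp hx with rfl | hx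
      · exact hx2
      · rw [Finset.mem_singleton] at hx; exact absurd (hx ▸ hx2) hb₃
    obtain ⟨c, hc⟩ : ∃ c, t₂ = {b, c} ∧ b ≠ c := by
      obtain ⟨x, y, hxy, rfl⟩ := Finset.card_eq_two.mp (hcard t₂ ht₂)
      rcases Finset.mem_insert.mp hb₂ with rfl | h
      · exact ⟨y, rfl, hxy⟩
      · rw [Finset.mem_singleton] at h
        subst h
        exact ⟨x, Finset.pair_comm _ _, hxy.symm⟩
    obtain ⟨rfl, hbc⟩ := hc
    have hac : a ≠ c := by
      rintro rfl
      exact ha₂ (by simp)
    have hc₃ : c ∈ t₃ := by
      have := hint _ ht₂ _ ht₃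
      rw [Finset.not_disjoint_iff] at this
      obtain ⟨x, hx, hx2⟩ := this
      rcases Finset.mem_insert.mp hx with rfl | hx
      · exact absurd hx2 hb₃
      · rw [Finset.mem_singleton] at hx; exact hx ▸ hx2
    have h₃eq : t₃ = {a, c} := by
      symm
      apply Finset.eq_of_subset_of_card_le
      · intro x hx
        rcases Finset.mem_insert.mp hx with rfl | hx
        · exact ha₃
        · rw [Finset.mem_singleton] at hx; exact hx ▸ hc₃
      · rw [hcard t₃ ht₃, Finset.card_pair hac]
    subst h₃eq
    have hsub : ∀ t ∈ F, t ⊆ {a, b, c} := by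
      intro t ht
      obtain ⟨x, y, hxy, rfl⟩ := Finset.card_eq_two.mp (hcard t ht)
      have e1 := hint _ ht₁ _ ht
      have e2 := hint _ ht₂ _ ht
      have e3 := hint _ ht₃ _ ht
      rw [Finset.not_disjoint_iff] at e1 e2 e3
      simp only [Finset.mem_insert, Finset.mem_singleton] at e1 e2 e3
      intro z hz
      simp only [Finset.mem_insert, Finset.mem_singleton] at hz ⊢
      obtain ⟨u1, h11, h12⟩ := e1
      obtain ⟨u2, h21, h22⟩ := e2
      obtain ⟨u3, h31, h32⟩ := e3
      by_contra hcon
      push Not at hcon
      obtain ⟨c1, c2, c3⟩ := hcon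
      have h12' : u1 = x ∨ u1 = y := h12
      rcases hz with rfl | rfl <;>
      rcases h11 with rfl | rfl <;> rcases h21 with rfl | rfl <;> rcases h31 with rfl | rfl <;>
      rcases h12 with rfl | rfl <;> rcases h22 with h22 | h22 <;> rcases h32 with h32 | h32 <;>
      simp_all
    refine ⟨{a, b, c}, ?_, ?_, ?_⟩
    · intro h
      simp only [Finset.mem_insert, Finset.mem_singleton] at h
      rcases h with rfl | rfl | rfl
      · exact hv _ ht₁ (by simp)
      · exact hv _ ht₁ (by simp)
      · exact hv _ ht₂ (by simp)
    · exact Finset.card_le_three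
    · intro k col hcol t ht
      by_contra hcon
      push Not at hcon
      have h1 : t ⊆ ({a, b, c} : Finset V).filter (fun y => col y = col v) := by
        intro x hx
        exact Finset.mem_filter.mpr ⟨hsub t ht hx, hcon x hx⟩
      have h2 := Finset.card_le_card h1
      rw [hcard t ht] at h2
      have h3 : ({a, b, c} : Finset V).card ≤ 3 := Finset.card_le_three
      omega

/-- Every finite `2→1` hypergraph avoiding `I₀` has a proper colouring with three colours. -/
theorem result : ∀ (V : Type) [Finite V] [DecidableEq V] (H : TwoOneHypergraph V),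
    ¬ H.ContainsI0 → ∃ c : V → Fin 3, H.IsProper c := by
  intro V _ _ H hH
  have hint : ∀ v : V, ∀ s, (s, v) ∈ H.edges → ∀ t, (t, v) ∈ H.edges → ¬ Disjoint s t := by
    intro v s hs t ht hdis
    apply hH
    obtain ⟨a, b, hab, rfl⟩ := Finset.card_eq_two.mp (H.tail_card _ hs)
    obtain ⟨c, d, hcd, rfl⟩ := Finset.card_eq_two.mp (H.tail_card _ ht)
    have hv1 : v ∉ ({a, b} : Finset V) := H.head_notMem _ hs
    have hv2 : v ∉ ({c, d} : Finset V) := H.head_notMem _ ht
    refine ⟨a, b, c, d, v, ?_, hs, ht⟩
    simp only [Finset.disjoint_left, Finset.mem_insert, Finset.mem_singleton] at hdis hv1 hv2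
    simp only [List.nodup_cons, List.mem_cons, List.not_mem_nil, or_false, not_or,
      List.nodup_nil, and_true, not_false_eq_true]
    push Not at hv1 hv2
    have h1 := hdis (a := a) (Or.inl rfl)
    have h2 := hdis (a := b) (Or.inr rfl)
    push Not at h1 h2
    exact ⟨⟨hab, h1.1, h1.2, hv1.1.symm⟩, ⟨h2.1, h2.2, hv1.2.symm⟩, ⟨hcd, hv2.1.symm⟩, hv2.2.symm⟩
  have hN := fun v : V => star_or_triangle v {t | (t, v) ∈ H.edges}
    (fun t ht => H.tail_card _ ht) (fun t ht => H.head_notMem _ ht)
    (fun s hs t ht => hint v s hs t ht)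
  choose N hN1 hN2 hN3 using hN
  obtain ⟨c, hc⟩ := majority_three N hN1 hN2
  refine ⟨c, ?_⟩
  rintro ⟨t, v⟩ he
  exact hN3 v 3 c (hc v) t he

end Pool.Agent.Results.MP_28691e_co.ThreeColourable
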